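import Pool.Agent.Q3.WMyc.Reduce

/-!
# MP_9ec85a_gt: there is no discrete weak Mycielski set in `ℝ³` (nor in any `ℝⁿ`)
-/

namespace Pool.Agent.Results.MP_9ec85a_gt.NoDiscreteWeakMycielski

/-- Two subsets of `ℝⁿ` are congruent if an isometry of `ℝⁿ` onto itself carries one onto the
other. -/
def Congruent {n : ℕ} (A B : Set (EuclideanSpace ℝ (Fin n))) : Prop :=
  ∃ g : EuclideanSpace ℝ (Fin n) ≃ᵢ EuclideanSpace ℝ (Fin n), g '' A = B

/-- `X` is a weak Mycielski set: there are two distinct points `p, q ∈ X` such that `X \ {p}` and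
`X \ {q}` are both congruent to `X`. -/
def IsWeakMycielski {n : ℕ} (X : Set (EuclideanSpace ℝ (Fin n))) : Prop :=
  ∃ p ∈ X, ∃ q ∈ X, p ≠ q ∧ Congruent (X \ {p}) X ∧ Congruent (X \ {q}) X

/-- `X` is discrete: every point of `X` is isolated in `X`. -/
def IsDiscreteSet {n : ℕ} (X : Set (EuclideanSpace ℝ (Fin n))) : Prop :=
  ∀ x ∈ X, ∃ ε > 0, ∀ y ∈ X, dist y x < ε → y = x

/-- No weak Mycielski set in a Euclidean space `ℝⁿ` is discrete; in particular (`n = 3`) there is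
no discrete weak Mycielski set in `ℝ³`. -/
theorem result (n : ℕ) :
    ¬ ∃ X : Set (EuclideanSpace ℝ (Fin n)), IsWeakMycielski X ∧ IsDiscreteSet X := by
  rintro ⟨X, ⟨p, hp, q, hq, hpq, ⟨g, hg⟩, ⟨h, hh⟩⟩, hX⟩
  have aux : ∀ (r : EuclideanSpace ℝ (Fin n))
      (k : EuclideanSpace ℝ (Fin n) ≃ᵢ EuclideanSpace ℝ (Fin n)), r ∈ X → k '' (X \ {r}) = X →
      Pool.Agent.Q3.WMyc.Sys X k.symm.toRealAffineIsometryEquiv r := by
    intro r k hr hk
    apply Pool.Agent.Q3.WMyc.Sys.of_image hr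
    rw [IsometryEquiv.coeFn_toRealAffineIsometryEquiv]
    have : k.symm '' (k '' (X \ {r})) = X \ {r} := by
      rw [← Set.image_comp]
      simp
    rw [← this, hk]
  refine Pool.Agent.Q3.WMyc.no_two (aux p g hp hg) (aux q h hq hh) ?_ hpq
  intro x hx
  obtain ⟨ε, hε, hiso⟩ := hX x hx
  exact ⟨ε, hε, fun y hy hd => hiso y hy (by rw [dist_eq_norm]; exact hd)⟩

end Pool.Agent.Results.MP_9ec85a_gt.NoDiscreteWeakMycielski
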